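import Mathlib

/-!
# A satisfactory coloring of the `8`-smooth numbers which does not extend to the quotient group

For a positive integer `n`, `K n` is the set of positive integers all of whose prime factors are at most
`n`, and `Khat n` is the set of the quotients of two elements of `K n`. We exhibit an `8`-satisfactory
coloring of `K 8` which is not the restriction of any `8`-satisfactory coloring of `Khat 8`.

The coloring depends only on the four exponents of `2, 3, 5, 7`, and is eventually periodic, of period `4`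
and preperiod `1`, in each of them; it is given by a table with `5 ^ 4` entries. It takes the values
`c 10 = 3`, `c 12 = 1`, `c 15 = 7`, `c 20 = 6`, `c 30 = 2`, `c 60 = 4`, and these, together with
`c i = i` for `i ≤ 8`, force `c (5 / 2) = 8` and `c (15 / 2) = 8` in any extension. But `5 / 2` and `15 / 2`
are two of the eight numbers `i * (5 / 2)`, `1 ≤ i ≤ 8`.
-/

set_option autoImplicit false

namespace Pool.Agent.Results.MP_bda3cd_nt.NoExtension

/-- `K n`: the positive integers all of whose prime factors are at most `n`, as a set of rationals. -/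
def K (n : ℕ) : Set ℚ := {x | ∃ m : ℕ, 0 < m ∧ (∀ p : ℕ, p.Prime → p ∣ m → p ≤ n) ∧ x = (m : ℚ)}

/-- `Khat n`: the quotients of two elements of `K n`. -/
def Khat (n : ℕ) : Set ℚ := {x | ∃ a ∈ K n, ∃ b ∈ K n, x = a / b}

/-- `c` is an `n`-satisfactory coloring of `X` (only the values of `c` on `X` matter): it takes values in
`{1, …, n}`, it satisfies `c i = i` for `1 ≤ i ≤ n`, and `c (i x) ≠ c (j x)` for `x ∈ X`,
`1 ≤ i < j ≤ n`. -/
structure Satisfactory (n : ℕ) (X : Set ℚ) (c : ℚ → ℕ) : Prop where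
  mem : ∀ x ∈ X, 1 ≤ c x ∧ c x ≤ n
  norm : ∀ i : ℕ, 1 ≤ i → i ≤ n → c (i : ℚ) = i
  ne : ∀ x ∈ X, ∀ i j : ℕ, 1 ≤ i → i < j → j ≤ n → c ((i : ℚ) * x) ≠ c ((j : ℚ) * x)

/-! ### The table -/

/-- The table, in base `8`. -/
def N : ℕ := 2336657574304795112724095372406535511867707953224219315120112324486564984382252224398912244051142078626396526094610184746085183876955261500214162596735878349173572295186940801254630943687152569149988152031954364978255296273887501626007079580563596874219785728833330136060411841580347443197974811773366789288975464918002178052996720580526681982760433206202334313067189152232680349457598875837542745292544811969582709873075069730524289097345463914272646392295727543364940271538187482198366546915789875450502922533954596367123852594994888144922587816497268399168384712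

/-- Reduction of an exponent to `{0, 1, 2, 3, 4}`. -/
def w (x : ℕ) : ℕ := if x < 5 then x else (x - 1) % 4 + 1

/-- Table lookup. -/
def T (a b c d : ℕ) : ℕ := (N >>> (3 * (w a + 5 * w b + 25 * w c + 125 * w d))) % 8 + 1

/-- The exponents of `2`, `3`, `5`, `7` in `i`, for `1 ≤ i ≤ 8`. -/
def e2 (i : ℕ) : ℕ := if i = 2 then 1 else if i = 4 then 2 else if i = 6 then 1 else if i = 8 then 3 else 0
def e3 (i : ℕ) : ℕ := if i = 3 then 1 else if i = 6 then 1 else 0
def e5 (i : ℕ) : ℕ := if i = 5 then 1 else 0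
def e7 (i : ℕ) : ℕ := if i = 7 then 1 else 0

lemma w_lt (x : ℕ) : w x < 5 := by
  unfold w; split_ifs <;> omega

lemma w_add (x k : ℕ) : w (w x + k) = w (x + k) := by
  unfold w; split_ifs <;> omega

/-- The check of one window. -/
def win (a b c d : ℕ) : Bool :=
  (List.range 9).all fun i => (List.range 9).all fun j => (i = 0 : Bool) || (j ≤ i : Bool) ||
    !(Nat.beq (T (a + e2 i) (b + e3 i) (c + e5 i) (d + e7 i))
      (T (a + e2 j) (b + e3 j) (c + e5 j) (d + e7 j)))

/-- The finite check of the `625` windows. -/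
lemma check_aux : ((List.range 5).all fun a => (List.range 5).all fun b => (List.range 5).all fun c =>
    (List.range 5).all fun d => win a b c d) = true := by
  decide +kernel

lemma check (a b c d i j : ℕ) (ha : a < 5) (hb : b < 5) (hc : c < 5) (hd : d < 5) (hi : 1 ≤ i)
    (hij : i < j) (hj : j < 9) :
    T (a + e2 i) (b + e3 i) (c + e5 i) (d + e7 i) ≠ T (a + e2 j) (b + e3 j) (c + e5 j) (d + e7 j) := by
  have h := check_aux
  simp only [List.all_eq_true, List.mem_range] at h
  have h1 := h a ha b hb c hc d hd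
  unfold win at h1
  simp only [List.all_eq_true, List.mem_range] at h1
  have h2 := h1 i (by omega) j hj
  intro he
  rw [he] at h2
  have hi0 : ¬ i = 0 := by omega
  have hji : ¬ j ≤ i := by omega
  simp [hi0, hji] at h2

lemma T_add (a b c d k l m n : ℕ) : T (w a + k) (w b + l) (w c + m) (w d + n)
    = T (a + k) (b + l) (c + m) (d + n) := by
  unfold T
  rw [w_add, w_add, w_add, w_add]

lemma T_window (a b c d i j : ℕ) (hi : 1 ≤ i) (hij : i < j) (hj : j ≤ 8) :
    T (a + e2 i) (b + e3 i) (c + e5 i) (d + e7 i) ≠ T (a + e2 j) (b + e3 j) (c + e5 j) (d + e7 j) := by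
  have := check (w a) (w b) (w c) (w d) i j (w_lt a) (w_lt b) (w_lt c) (w_lt d) hi hij (by omega)
  rwa [T_add, T_add] at this

/-! ### The coloring -/

/-- The coloring of the rationals; only its values at the positive `8`-smooth integers matter. -/
def col (x : ℚ) : ℕ :=
  T (x.num.natAbs.factorization 2) (x.num.natAbs.factorization 3)
    (x.num.natAbs.factorization 5) (x.num.natAbs.factorization 7)

lemma col_nat (m : ℕ) : col (m : ℚ) = T (m.factorization 2) (m.factorization 3)
    (m.factorization 5) (m.factorization 7) := by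
  unfold col
  simp

lemma fac (a b c d : ℕ) :
    (2 ^ a * 3 ^ b * 5 ^ c * 7 ^ d : ℕ).factorization 2 = a ∧
    (2 ^ a * 3 ^ b * 5 ^ c * 7 ^ d : ℕ).factorization 3 = b ∧
    (2 ^ a * 3 ^ b * 5 ^ c * 7 ^ d : ℕ).factorization 5 = c ∧
    (2 ^ a * 3 ^ b * 5 ^ c * 7 ^ d : ℕ).factorization 7 = d := by
  have p2 : Nat.Prime 2 := by norm_num
  have p3 : Nat.Prime 3 := by norm_num
  have p5 : Nat.Prime 5 := by norm_num
  have p7 : Nat.Prime 7 := by norm_num
  rw [Nat.factorization_mul (by positivity) (by positivity),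
    Nat.factorization_mul (by positivity) (by positivity),
    Nat.factorization_mul (by positivity) (by positivity),
    p2.factorization_pow, p3.factorization_pow, p5.factorization_pow, p7.factorization_pow]
  simp

lemma col_prod (a b c d : ℕ) : col ((2 ^ a * 3 ^ b * 5 ^ c * 7 ^ d : ℕ) : ℚ) = T a b c d := by
  rw [col_nat, (fac a b c d).1, (fac a b c d).2.1, (fac a b c d).2.2.1, (fac a b c d).2.2.2]

lemma eq_pow (i : ℕ) (h1 : 1 ≤ i) (h8 : i ≤ 8) : i = 2 ^ e2 i * 3 ^ e3 i * 5 ^ e5 i * 7 ^ e7 i := by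
  interval_cases i <;> decide

lemma col_mul (m i : ℕ) (hm : 0 < m) (h1 : 1 ≤ i) (h8 : i ≤ 8) : col ((i : ℚ) * (m : ℚ)) =
    T (m.factorization 2 + e2 i) (m.factorization 3 + e3 i)
      (m.factorization 5 + e5 i) (m.factorization 7 + e7 i) := by
  have hi0 : i ≠ 0 := by omega
  have hc : (i : ℚ) * (m : ℚ) = ((m * i : ℕ) : ℚ) := by push_cast; ring
  have h := fac (e2 i) (e3 i) (e5 i) (e7 i)
  rw [← eq_pow i h1 h8] at h
  rw [hc, col_nat, Nat.factorization_mul hm.ne' hi0]
  simp only [Finsupp.coe_add, Pi.add_apply]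
  rw [h.1, h.2.1, h.2.2.1, h.2.2.2]

lemma col_satisfactory : Satisfactory 8 (K 8) col where
  mem := by
    rintro x -
    unfold col T
    omega
  norm := by
    intro i h1 h8
    have h := col_prod (e2 i) (e3 i) (e5 i) (e7 i)
    rw [← eq_pow i h1 h8] at h
    rw [h]
    clear h
    interval_cases i <;> decide +kernel
  ne := by
    rintro x ⟨m, hm, -, rfl⟩ i j hi hij hj
    rw [col_mul m i hm hi (by omega), col_mul m j hm (by omega) hj]
    exact T_window _ _ _ _ i j hi hij hj

/-! ### Smoothness of explicit numbers -/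

lemma smooth_of_dvd {a b c d m : ℕ} (hm : m ∣ 2 ^ a * 3 ^ b * 5 ^ c * 7 ^ d) {p : ℕ} (hp : p.Prime)
    (hpm : p ∣ m) : p ≤ 8 := by
  have h := hpm.trans hm
  rcases (Nat.Prime.dvd_mul hp).1 h with h | h
  · rcases (Nat.Prime.dvd_mul hp).1 h with h | h
    · rcases (Nat.Prime.dvd_mul hp).1 h with h | h
      · exact (Nat.le_of_dvd (by norm_num) (hp.dvd_of_dvd_pow h)).trans (by norm_num)
      · exact (Nat.le_of_dvd (by norm_num) (hp.dvd_of_dvd_pow h)).trans (by norm_num)
    · exact (Nat.le_of_dvd (by norm_num) (hp.dvd_of_dvd_pow h)).trans (by norm_num)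
  · exact (Nat.le_of_dvd (by norm_num) (hp.dvd_of_dvd_pow h)).trans (by norm_num)

lemma mem_K (m a b c d : ℕ) (h0 : 0 < m) (hm : m ∣ 2 ^ a * 3 ^ b * 5 ^ c * 7 ^ d) : (m : ℚ) ∈ K 8 :=
  ⟨m, h0, fun _ hp hpm => smooth_of_dvd hm hp hpm, rfl⟩

lemma mem_Khat {x : ℚ} (m k a b c d a' b' c' d' : ℕ) (h0 : 0 < m)
    (hm : m ∣ 2 ^ a * 3 ^ b * 5 ^ c * 7 ^ d) (k0 : 0 < k)
    (hk : k ∣ 2 ^ a' * 3 ^ b' * 5 ^ c' * 7 ^ d') (hx : x = (m : ℚ) / (k : ℚ)) : x ∈ Khat 8 :=
  ⟨m, mem_K m a b c d h0 hm, k, mem_K k a' b' c' d' k0 hk, hx⟩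

/-! ### The obstruction -/

/-- The values of the coloring at a few integers. -/
lemma col_vals : col 1 = 1 ∧ col 2 = 2 ∧ col 3 = 3 ∧ col 4 = 4 ∧ col 5 = 5 ∧ col 6 = 6 ∧ col 10 = 3 ∧
    col 12 = 1 ∧ col 15 = 7 ∧ col 20 = 6 ∧ col 30 = 2 ∧ col 60 = 4 := by
  refine ⟨?_, ?_, ?_, ?_, ?_, ?_, ?_, ?_, ?_, ?_, ?_, ?_⟩
  · simpa using (col_prod 0 0 0 0).trans (show T 0 0 0 0 = 1 by decide +kernel)
  · simpa using (col_prod 1 0 0 0).trans (show T 1 0 0 0 = 2 by decide +kernel)
  · simpa using (col_prod 0 1 0 0).trans (show T 0 1 0 0 = 3 by decide +kernel)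
  · have := (col_prod 2 0 0 0).trans (show T 2 0 0 0 = 4 by decide +kernel)
    norm_num at this; exact this
  · simpa using (col_prod 0 0 1 0).trans (show T 0 0 1 0 = 5 by decide +kernel)
  · have := (col_prod 1 1 0 0).trans (show T 1 1 0 0 = 6 by decide +kernel)
    norm_num at this; exact this
  · have := (col_prod 1 0 1 0).trans (show T 1 0 1 0 = 3 by decide +kernel)
    norm_num at this; exact this
  · have := (col_prod 2 1 0 0).trans (show T 2 1 0 0 = 1 by decide +kernel)
    norm_num at this; exact this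
  · have := (col_prod 0 1 1 0).trans (show T 0 1 1 0 = 7 by decide +kernel)
    norm_num at this; exact this
  · have := (col_prod 2 0 1 0).trans (show T 2 0 1 0 = 6 by decide +kernel)
    norm_num at this; exact this
  · have := (col_prod 1 1 1 0).trans (show T 1 1 1 0 = 2 by decide +kernel)
    norm_num at this; exact this
  · have := (col_prod 2 1 1 0).trans (show T 2 1 1 0 = 4 by decide +kernel)
    norm_num at this; exact this

lemma not_extends (c : ℚ → ℕ) (hc : Satisfactory 8 (Khat 8) c) (hext : ∀ x ∈ K 8, c x = col x) :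
    False := by
  obtain ⟨v1, v2, v3, v4, v5, v6, v10, v12, v15, v20, v30, v60⟩ := col_vals
  have k (m : ℕ) (h0 : 0 < m) (hm : m ∣ 2 ^ 3 * 3 ^ 3 * 5 ^ 3 * 7 ^ 3) : (m : ℚ) ∈ K 8 :=
    mem_K m 3 3 3 3 h0 hm
  have g1 : c 1 = 1 := by have := hext _ (k 1 (by norm_num) (by norm_num)); push_cast at this; rw [this, v1]
  have g2 : c 2 = 2 := by have := hext _ (k 2 (by norm_num) (by norm_num)); push_cast at this; rw [this, v2]
  have g3 : c 3 = 3 := by have := hext _ (k 3 (by norm_num) (by norm_num)); push_cast at this; rw [this, v3]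
  have g4 : c 4 = 4 := by have := hext _ (k 4 (by norm_num) (by norm_num)); push_cast at this; rw [this, v4]
  have g5 : c 5 = 5 := by have := hext _ (k 5 (by norm_num) (by norm_num)); push_cast at this; rw [this, v5]
  have g6 : c 6 = 6 := by have := hext _ (k 6 (by norm_num) (by norm_num)); push_cast at this; rw [this, v6]
  have g10 : c 10 = 3 := by
    have := hext _ (k 10 (by norm_num) (by norm_num)); push_cast at this; rw [this, v10]
  have g12 : c 12 = 1 := by
    have := hext _ (k 12 (by norm_num) (by norm_num)); push_cast at this; rw [this, v12]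
  have g15 : c 15 = 7 := by
    have := hext _ (k 15 (by norm_num) (by norm_num)); push_cast at this; rw [this, v15]
  have g20 : c 20 = 6 := by
    have := hext _ (k 20 (by norm_num) (by norm_num)); push_cast at this; rw [this, v20]
  have g30 : c 30 = 2 := by
    have := hext _ (k 30 (by norm_num) (by norm_num)); push_cast at this; rw [this, v30]
  have g60 : c 60 = 4 := by
    have := hext _ (k 60 (by norm_num) (by norm_num)); push_cast at this; rw [this, v60]
  have M12 : (1 / 2 : ℚ) ∈ Khat 8 :=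
    mem_Khat 1 2 3 3 3 3 3 3 3 3 (by norm_num) (by norm_num) (by norm_num) (by norm_num) (by norm_num)
  have M58 : (5 / 8 : ℚ) ∈ Khat 8 :=
    mem_Khat 5 8 3 3 3 3 3 3 3 3 (by norm_num) (by norm_num) (by norm_num) (by norm_num) (by norm_num)
  have M52 : (5 / 2 : ℚ) ∈ Khat 8 :=
    mem_Khat 5 2 3 3 3 3 3 3 3 3 (by norm_num) (by norm_num) (by norm_num) (by norm_num) (by norm_num)
  have M32 : (3 / 2 : ℚ) ∈ Khat 8 :=
    mem_Khat 3 2 3 3 3 3 3 3 3 3 (by norm_num) (by norm_num) (by norm_num) (by norm_num) (by norm_num)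
  have M152 : (15 / 2 : ℚ) ∈ Khat 8 :=
    mem_Khat 15 2 3 3 3 3 3 3 3 3 (by norm_num) (by norm_num) (by norm_num) (by norm_num) (by norm_num)
  -- `c (5 / 2) = 8`
  have a1 := hc.ne _ M12 2 5 (by norm_num) (by norm_num) (by norm_num)
  have a2 := hc.ne _ M12 4 5 (by norm_num) (by norm_num) (by norm_num)
  have a3 := hc.ne _ M12 5 6 (by norm_num) (by norm_num) (by norm_num)
  have a4 := hc.ne _ M12 5 8 (by norm_num) (by norm_num) (by norm_num)
  have a5 := hc.ne _ M58 4 8 (by norm_num) (by norm_num) (by norm_num)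
  have a6 := hc.ne _ M52 1 8 (by norm_num) (by norm_num) (by norm_num)
  have a7 := hc.ne _ M52 1 6 (by norm_num) (by norm_num) (by norm_num)
  have a8 := hc.mem _ M52
  -- `c (15 / 2) = 8`
  have b1 := hc.ne _ M32 5 8 (by norm_num) (by norm_num) (by norm_num)
  have b2 := hc.ne _ M152 1 4 (by norm_num) (by norm_num) (by norm_num)
  have b3 := hc.ne _ M32 2 5 (by norm_num) (by norm_num) (by norm_num)
  have b4 := hc.ne _ M152 1 8 (by norm_num) (by norm_num) (by norm_num)
  have b5 := hc.ne _ M52 2 3 (by norm_num) (by norm_num) (by norm_num)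
  have b6 := hc.ne _ M32 4 5 (by norm_num) (by norm_num) (by norm_num)
  have b7 := hc.ne _ M152 1 2 (by norm_num) (by norm_num) (by norm_num)
  have b8 := hc.mem _ M152
  have e := hc.ne _ M52 1 3 (by norm_num) (by norm_num) (by norm_num)
  norm_num at a1 a2 a3 a4 a5 a6 a7 b1 b2 b3 b4 b5 b6 b7 e
  rw [g1] at a1
  rw [g2] at a2
  rw [g3] at a3
  rw [g4] at a4
  rw [g5] at a5
  rw [g20] at a6
  rw [g15] at a7
  rw [g12] at b1
  rw [g30] at b2
  rw [g3] at b3
  rw [g60] at b4
  rw [g5] at b5
  rw [g6] at b6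
  rw [g15] at b7
  omega

/-- There is an `8`-satisfactory coloring of `K 8` which is not the restriction of an `8`-satisfactory
coloring of `Khat 8`; hence the answer to the question is negative. -/
theorem result :
    (∃ c : ℚ → ℕ, Satisfactory 8 (K 8) c ∧
      ¬ ∃ c' : ℚ → ℕ, Satisfactory 8 (Khat 8) c' ∧ ∀ x ∈ K 8, c' x = c x) ∧
    ¬ ∀ n : ℕ, 0 < n → ∀ c : ℚ → ℕ, Satisfactory n (K n) c →
      ∃ c' : ℚ → ℕ, Satisfactory n (Khat n) c' ∧ ∀ x ∈ K n, c' x = c x := by
  have h : ∃ c : ℚ → ℕ, Satisfactory 8 (K 8) c ∧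
      ¬ ∃ c' : ℚ → ℕ, Satisfactory 8 (Khat 8) c' ∧ ∀ x ∈ K 8, c' x = c x :=
    ⟨col, col_satisfactory, fun ⟨c', h1, h2⟩ => not_extends c' h1 h2⟩
  refine ⟨h, fun hall => ?_⟩
  obtain ⟨c, h1, h2⟩ := h
  exact h2 (hall 8 (by norm_num) c h1)

end Pool.Agent.Results.MP_bda3cd_nt.NoExtension
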